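import Pool.Agent.W425.SM.Stmts
import Pool.Agent.H628R4.TZ.Toric

set_option autoImplicit false

/-! Part C3 of the sparse polynomial project. -/

namespace Pool.Agent.W655.SM

open MvPolynomial Pool.Agent.H628R4.TZ Pool.Agent.H628R4.TP Pool.Agent.W425.SM
open MeasureTheory Set Filter Topology

variable {r N : ℕ}

lemma cone_li (R : SmoothFan N) (σ : Finset (Fin N → ℕ)) (hσ : σ ∈ R.cones) :
    LinearIndependent ℝ (fun ρ : σ => (fun l => ((ρ : Fin N → ℕ) l : ℝ) : Fin N → ℝ)) := by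
  obtain ⟨B, hB, hρ⟩ := R.smooth σ hσ
  choose f hf using fun ρ : σ => hρ ρ ρ.2
  have h1 : LinearIndependent ℝ (fun i => (fun l => (B i l : ℝ) : Fin N → ℝ)) := by
    have h2 : IsUnit (B.map (fun z : ℤ => (z : ℝ))) := by
      rw [Matrix.isUnit_iff_isUnit_det]
      have h3 : (B.map (fun z : ℤ => (z : ℝ))).det = ((B.det : ℤ) : ℝ) := by
        rw [show ((B.det : ℤ) : ℝ) = (Int.castRingHom ℝ) B.det from rfl, RingHom.map_det]
        rfl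
      rw [h3]
      exact hB.map (Int.castRingHom ℝ)
    exact Matrix.linearIndependent_rows_iff_isUnit.2 h2
  have hinj : Function.Injective f := by
    intro ρ ρ' h
    refine Subtype.ext (funext fun l => ?_)
    have h3 := hf ρ l
    rw [h, hf ρ' l] at h3
    exact_mod_cast h3.symm
  have h4 := h1.comp f hinj
  have h5 : (fun ρ : σ => (fun l => ((ρ : Fin N → ℕ) l : ℝ) : Fin N → ℝ)) =
      (fun i => (fun l => (B i l : ℝ) : Fin N → ℝ)) ∘ f := by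
    funext ρ l
    simp only [Function.comp_apply]
    rw [hf ρ l]
    simp
  rw [h5]
  exact h4

/-- coordinates of the ray -/
noncomputable def ar (v : Fin r → Fin N → ℕ) {J : Finset (Fin r)} {d : ℕ}
    (Θ : ((J → ℝ) × (Fin d → ℝ)) ≃ₗ[ℝ] (Fin (N+1) → ℝ)) (ρ : Fin N → ℕ) : Fin d → ℝ :=
  (Θ.symm (rhoHat v ρ)).2

lemma ymap_rhoHat (v : Fin r → Fin N → ℕ) (ρ : Fin N → ℕ) (j : Fin r) :
    ymap v (rhoHat v ρ) j = ((∑ l, ρ l * v j l : ℕ) : ℝ) - (ordAlong v ρ : ℝ) := by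
  unfold ymap rhoHat
  simp only [Fin.cons_succ, Fin.cons_zero]
  congr 1
  push_cast
  exact Finset.sum_congr rfl fun l _ => mul_comm _ _

lemma ar_spec (v : Fin r → Fin N → ℕ) {J : Finset (Fin r)} {d : ℕ}
    (Θ : ((J → ℝ) × (Fin d → ℝ)) ≃ₗ[ℝ] (Fin (N+1) → ℝ)) {θ : ℝ} (hA : Adapt v J d Θ θ)
    (σ : Finset (Fin N → ℕ)) (hJ : minSet v σ = J) (ρ : Fin N → ℕ) (hρ : ρ ∈ σ) :
    Θ (0, ar v Θ ρ) = rhoHat v ρ := by
  have h1 : Θ.symm (rhoHat v ρ) = (0, ar v Θ ρ) := by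
    refine Prod.ext ?_ rfl
    funext j
    have h2 := hA.y (Θ.symm (rhoHat v ρ)).1 (Θ.symm (rhoHat v ρ)).2 j
    have h3 : Θ ((Θ.symm (rhoHat v ρ)).1, (Θ.symm (rhoHat v ρ)).2) = rhoHat v ρ :=
      Θ.apply_symm_apply _
    rw [h3, ymap_rhoHat] at h2
    rw [← h2]
    have h4 : (j : Fin r) ∈ minSet v σ := hJ ▸ j.2
    rw [minSet, Finset.mem_filter] at h4
    rw [h4.2 ρ hρ]
    simp
  rw [← h1, Θ.apply_symm_apply]

/-- the linear map of a cone -/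
noncomputable def cL (v : Fin r → Fin N → ℕ) {J : Finset (Fin r)} {d : ℕ}
    (Θ : ((J → ℝ) × (Fin d → ℝ)) ≃ₗ[ℝ] (Fin (N+1) → ℝ)) (σ : Finset (Fin N → ℕ)) :
    (σ → ℝ) →ₗ[ℝ] (Fin d → ℝ) :=
  Fintype.linearCombination ℝ (fun ρ : σ => ar v Θ ρ)

lemma cL_apply (v : Fin r → Fin N → ℕ) {J : Finset (Fin r)} {d : ℕ}
    (Θ : ((J → ℝ) × (Fin d → ℝ)) ≃ₗ[ℝ] (Fin (N+1) → ℝ)) (σ : Finset (Fin N → ℕ)) (c : σ → ℝ) :
    cL v Θ σ c = ∑ ρ : σ, c ρ • ar v Θ ρ := by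
  rw [cL, Fintype.linearCombination_apply]

lemma cL_Θ (v : Fin r → Fin N → ℕ) {J : Finset (Fin r)} {d : ℕ}
    (Θ : ((J → ℝ) × (Fin d → ℝ)) ≃ₗ[ℝ] (Fin (N+1) → ℝ)) {θ : ℝ} (hA : Adapt v J d Θ θ)
    (σ : Finset (Fin N → ℕ)) (hJ : minSet v σ = J) (c : σ → ℝ) :
    Θ (0, cL v Θ σ c) = ∑ ρ : σ, c ρ • rhoHat v ρ := by
  have h1 : ((0 : J → ℝ), cL v Θ σ c) = ∑ ρ : σ, c ρ • ((0 : J → ℝ), ar v Θ (ρ : Fin N → ℕ)) := by
    refine Prod.ext ?_ ?_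
    · simp [Prod.fst_sum]
    · rw [Prod.snd_sum, cL_apply]
      exact Finset.sum_congr rfl fun ρ _ => rfl
  rw [h1, map_sum]
  refine Finset.sum_congr rfl fun ρ _ => ?_
  rw [map_smul, ar_spec v Θ hA σ hJ ρ ρ.2]

lemma ar_li (v : Fin r → Fin N → ℕ) (R : SmoothFan N) {J : Finset (Fin r)} {d : ℕ}
    (Θ : ((J → ℝ) × (Fin d → ℝ)) ≃ₗ[ℝ] (Fin (N+1) → ℝ)) {θ : ℝ} (hA : Adapt v J d Θ θ)
    (σ : Finset (Fin N → ℕ)) (hσ : σ ∈ R.cones) (hJ : minSet v σ = J) :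
    LinearIndependent ℝ (fun ρ : σ => ar v Θ (ρ : Fin N → ℕ)) := by
  let T : (Fin d → ℝ) →ₗ[ℝ] (Fin N → ℝ) :=
    (LinearMap.funLeft ℝ ℝ Fin.succ) ∘ₗ Θ.toLinearMap ∘ₗ (LinearMap.inr ℝ (J → ℝ) (Fin d → ℝ))
  refine LinearIndependent.of_comp T ?_
  have h1 : (T ∘ fun ρ : σ => ar v Θ (ρ : Fin N → ℕ)) =
      (fun ρ : σ => (fun l => ((ρ : Fin N → ℕ) l : ℝ) : Fin N → ℝ)) := by
    funext ρ l
    show Θ (0, ar v Θ (ρ : Fin N → ℕ)) (Fin.succ l) = _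
    rw [ar_spec v Θ hA σ hJ ρ ρ.2]
    simp [rhoHat]
  rw [h1]
  exact cone_li R σ hσ

lemma card_le (v : Fin r → Fin N → ℕ) (R : SmoothFan N) {J : Finset (Fin r)} {d : ℕ}
    (Θ : ((J → ℝ) × (Fin d → ℝ)) ≃ₗ[ℝ] (Fin (N+1) → ℝ)) {θ : ℝ} (hA : Adapt v J d Θ θ)
    (σ : Finset (Fin N → ℕ)) (hσ : σ ∈ R.cones) (hJ : minSet v σ = J) : σ.card ≤ d := by
  have h := (ar_li v R Θ hA σ hσ hJ).fintype_card_le_finrank
  simpa using h

lemma cL_inj (v : Fin r → Fin N → ℕ) (R : SmoothFan N) {J : Finset (Fin r)} {d : ℕ}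
    (Θ : ((J → ℝ) × (Fin d → ℝ)) ≃ₗ[ℝ] (Fin (N+1) → ℝ)) {θ : ℝ} (hA : Adapt v J d Θ θ)
    (σ : Finset (Fin N → ℕ)) (hσ : σ ∈ R.cones) (hJ : minSet v σ = J) :
    Function.Injective (cL v Θ σ) :=
  (ar_li v R Θ hA σ hσ hJ).fintypeLinearCombination_injective

lemma reg_eq (v : Fin r → Fin N → ℕ) {J : Finset (Fin r)} {d : ℕ}
    (Θ : ((J → ℝ) × (Fin d → ℝ)) ≃ₗ[ℝ] (Fin (N+1) → ℝ)) {θ : ℝ} (hA : Adapt v J d Θ θ)
    (σ : Finset (Fin N → ℕ)) (hJ : minSet v σ = J) :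
    reg v Θ σ = cL v Θ σ '' {c | ∀ ρ, 0 < c ρ} := by
  classical
  ext a
  constructor
  · rintro ⟨c, hc, h⟩
    refine ⟨fun ρ => c ρ, fun ρ => hc ρ ρ.2, ?_⟩
    have h1 : Θ (0, a) = Θ (0, cL v Θ σ (fun ρ => c ρ)) := by
      rw [cL_Θ v Θ hA σ hJ, h]
      exact (Finset.sum_coe_sort σ (fun ρ => c ρ • rhoHat v ρ)).symm
    have h2 := Θ.injective h1
    exact (congrArg Prod.snd h2).symm
  · rintro ⟨c, hc, rfl⟩
    refine ⟨fun ρ => if h : ρ ∈ σ then c ⟨ρ, h⟩ else 0, fun ρ hρ => by simp only [hρ, dif_pos]; exact hc _, ?_⟩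
    rw [cL_Θ v Θ hA σ hJ]
    rw [← Finset.sum_coe_sort σ]
    refine Finset.sum_congr rfl fun ρ _ => ?_
    simp

lemma pos_meas (σ : Finset (Fin N → ℕ)) : MeasurableSet {c : σ → ℝ | ∀ ρ, 0 < c ρ} := by
  have h : {c : σ → ℝ | ∀ ρ, 0 < c ρ} = Set.univ.pi fun _ => Ioi 0 := by
    ext c; simp
  rw [h]
  exact MeasurableSet.univ_pi fun _ => measurableSet_Ioi

lemma reg_meas (v : Fin r → Fin N → ℕ) (R : SmoothFan N) {J : Finset (Fin r)} {d : ℕ}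
    (Θ : ((J → ℝ) × (Fin d → ℝ)) ≃ₗ[ℝ] (Fin (N+1) → ℝ)) {θ : ℝ} (hA : Adapt v J d Θ θ)
    (σ : Finset (Fin N → ℕ)) (hσ : σ ∈ R.cones) (hJ : minSet v σ = J) :
    MeasurableSet (reg v Θ σ) := by
  rw [reg_eq v Θ hA σ hJ]
  exact (pos_meas σ).image_of_continuousOn_injOn
    (LinearMap.continuous_of_finiteDimensional _).continuousOn (cL_inj v R Θ hA σ hσ hJ).injOn

lemma reg_null (v : Fin r → Fin N → ℕ) {J : Finset (Fin r)} {d : ℕ}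
    (Θ : ((J → ℝ) × (Fin d → ℝ)) ≃ₗ[ℝ] (Fin (N+1) → ℝ)) {θ : ℝ} (hA : Adapt v J d Θ θ)
    (σ : Finset (Fin N → ℕ)) (hJ : minSet v σ = J) (hd : σ.card < d) :
    volume (reg v Θ σ) = 0 := by
  rw [reg_eq v Θ hA σ hJ]
  have h1 : LinearMap.range (cL v Θ σ) ≠ ⊤ := by
    intro h
    have h2 := LinearMap.finrank_range_le (cL v Θ σ)
    rw [h, finrank_top] at h2
    simp at h2
    omega
  refine measure_mono_null ?_ (Measure.addHaar_submodule volume _ h1)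
  rintro _ ⟨c, _, rfl⟩
  exact ⟨c, rfl⟩

/-- exponents -/
noncomputable def kp (v : Fin r → Fin N → ℕ) (s : ℝ) (ρ : Fin N → ℕ) : ℝ :=
  (ordAlong v ρ : ℝ) * s + (∑ l, ρ l : ℕ)

lemma kp_pos (v : Fin r → Fin N → ℕ) (R : SmoothFan N) (s : ℝ) (hs : 0 < s)
    (σ : Finset (Fin N → ℕ)) (hσ : σ ∈ R.cones) (ρ : Fin N → ℕ) (hρ : ρ ∈ σ) : 0 < kp v s ρ := by
  have h1 : 0 < ∑ l, ρ l := by
    by_contra h
    have h2 : ∑ l, ρ l = 0 := by omega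
    have h3 := (cone_li R σ hσ).ne_zero ⟨ρ, hρ⟩
    apply h3
    funext l
    simp only [Pi.zero_apply, Nat.cast_eq_zero]
    exact (Finset.sum_eq_zero_iff.1 h2) l (Finset.mem_univ _)
  have h2 : (0:ℝ) < (∑ l, ρ l : ℕ) := by exact_mod_cast h1
  have h3 : (0:ℝ) ≤ ordAlong v ρ := Nat.cast_nonneg _
  unfold kp
  positivity

lemma wt_cone (v : Fin r → Fin N → ℕ) (s : ℝ) (σ : Finset (Fin N → ℕ)) (c : σ → ℝ) :
    wt (lm (N := N) s) (∑ ρ : σ, c ρ • rhoHat v (ρ : Fin N → ℕ)) =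
      ∏ ρ : σ, ((Real.exp (-kp v s ρ * c ρ) : ℝ) : ℂ) := by
  unfold wt
  rw [← Complex.ofReal_prod, ← Complex.ofReal_prod, ← Real.exp_sum, ← Real.exp_sum]
  congr 2
  rw [Fin.sum_univ_succ]
  simp only [lm, Fin.cons_zero, Fin.cons_succ, Finset.sum_apply, Pi.smul_apply, smul_eq_mul, rhoHat,
    kp, Finset.mul_sum]
  rw [Finset.sum_comm, ← Finset.sum_add_distrib]
  refine Finset.sum_congr rfl fun ρ _ => ?_
  have h : ∑ l, -1 * (c ρ * ((ρ : Fin N → ℕ) l : ℝ)) = -(c ρ) * ((∑ l, (ρ : Fin N → ℕ) l : ℕ) : ℝ) := by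
    push_cast
    rw [Finset.mul_sum]
    exact Finset.sum_congr rfl fun l _ => by ring
  rw [h]
  ring

lemma cone_val (v : Fin r → Fin N → ℕ) (R : SmoothFan N) (s : ℝ) (hs : 0 < s)
    (σ : Finset (Fin N → ℕ)) (hσ : σ ∈ R.cones) :
    ∫ c in {c : σ → ℝ | ∀ ρ, 0 < c ρ},
        wt (lm (N := N) s) (∑ ρ : σ, c ρ • rhoHat v (ρ : Fin N → ℕ)) =
      ∏ ρ ∈ σ, ((ordAlong v ρ : ℂ) * s + ((∑ l, ρ l : ℕ) : ℂ))⁻¹ := by
  simp only [wt_cone]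
  have h : {c : σ → ℝ | ∀ ρ, 0 < c ρ} = Set.univ.pi fun _ => Ioi 0 := by
    ext c; simp
  rw [h, volume_pi, Measure.restrict_pi_pi,
    integral_fintype_prod_eq_prod (fun (ρ : σ) t => ((Real.exp (-kp v s ρ * t) : ℝ) : ℂ))]
  rw [← Finset.prod_coe_sort σ]
  refine Finset.prod_congr rfl fun ρ _ => ?_
  rw [exp_int _ (kp_pos v R s hs σ hσ ρ ρ.2)]
  congr 1
  unfold kp
  push_cast
  rfl

/-- value of a linear form along a cone -/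
lemma sum_form (v : Fin r → Fin N → ℕ) (σ : Finset (Fin N → ℕ)) (y : (Fin N → ℕ) → ℝ)
    (w : Fin N → ℝ) (hw : ∀ l, w l = ∑ ρ ∈ σ, y ρ * (ρ l : ℝ)) (j : Fin r) :
    ∑ i, (v j i : ℝ) * w i = ∑ ρ ∈ σ, y ρ * ((∑ l, ρ l * v j l : ℕ) : ℝ) := by
  simp only [hw, Finset.mul_sum]
  rw [Finset.sum_comm]
  refine Finset.sum_congr rfl fun ρ _ => ?_
  push_cast
  rw [Finset.mul_sum]
  exact Finset.sum_congr rfl fun l _ => by ring

lemma ord_le (v : Fin r → Fin N → ℕ) (ρ : Fin N → ℕ) (j : Fin r) :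
    ordAlong v ρ ≤ ∑ l, ρ l * v j l :=
  ciInf_le (Set.finite_range _).bddBelow j

lemma reg_coord (v : Fin r → Fin N → ℕ) {J : Finset (Fin r)} {d : ℕ}
    (Θ : ((J → ℝ) × (Fin d → ℝ)) ≃ₗ[ℝ] (Fin (N+1) → ℝ)) (σ : Finset (Fin N → ℕ))
    (a : Fin d → ℝ) (ha : a ∈ reg v Θ σ) : ∃ c : (Fin N → ℕ) → ℝ, (∀ ρ ∈ σ, 0 < c ρ) ∧
      Θ (0, a) 0 = ∑ ρ ∈ σ, c ρ * (ordAlong v ρ : ℝ) ∧
      ∀ l : Fin N, Θ (0, a) l.succ = ∑ ρ ∈ σ, c ρ * (ρ l : ℝ) := by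
  obtain ⟨c, hc, h⟩ := ha
  refine ⟨c, hc, ?_, fun l => ?_⟩
  · rw [h]; simp [rhoHat]
  · rw [h]; simp [rhoHat]

lemma reg_disj (v : Fin r → Fin N → ℕ) (R : SmoothFan N) {J : Finset (Fin r)} {d : ℕ}
    (Θ : ((J → ℝ) × (Fin d → ℝ)) ≃ₗ[ℝ] (Fin (N+1) → ℝ)) (σ σ' : Finset (Fin N → ℕ))
    (hσ : σ ∈ R.cones) (hσ' : σ' ∈ R.cones) (a : Fin d → ℝ) (ha : a ∈ reg v Θ σ)
    (ha' : a ∈ reg v Θ σ') : σ = σ' := by
  obtain ⟨c, hc, -, h⟩ := reg_coord v Θ σ a ha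
  obtain ⟨c', hc', -, h'⟩ := reg_coord v Θ σ' a ha'
  obtain ⟨τ, _, hτ⟩ := R.partition (fun l => Θ (0, a) l.succ) (fun l => by
    show 0 ≤ Θ (0, a) l.succ
    rw [h]
    exact Finset.sum_nonneg fun ρ hρ => mul_nonneg (hc ρ hρ).le (Nat.cast_nonneg _))
  rw [hτ σ ⟨hσ, c, hc, h⟩, hτ σ' ⟨hσ', c', hc', h'⟩]

/-- the condition of `limG` -/
def Cond (v : Fin r → Fin N → ℕ) (α : ℝ) (J : Finset (Fin r)) (x : Fin (N+1) → ℝ) : Prop :=
  0 < x 0 ∧ (∀ i : Fin N, 0 < x i.succ ∨ (0 < α ∧ x i.succ = 0)) ∧ (∀ j ∉ J, 0 < ymap v x j)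

/-- the cones which contribute -/
def PC (v : Fin r → Fin N → ℕ) (α : ℝ) (J : Finset (Fin r)) (σ : Finset (Fin N → ℕ)) : Prop :=
  minSet v σ = J ∧ Inc α σ ∧ ∃ ρ ∈ σ, ordAlong v ρ ≠ 0

lemma cond_of_reg (v : Fin r → Fin N → ℕ) {J : Finset (Fin r)} {d : ℕ}
    (Θ : ((J → ℝ) × (Fin d → ℝ)) ≃ₗ[ℝ] (Fin (N+1) → ℝ)) (α : ℝ)
    (σ : Finset (Fin N → ℕ)) (hP : PC v α J σ) (a : Fin d → ℝ) (ha : a ∈ reg v Θ σ) :
    Cond v α J (Θ (0, a)) := by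
  obtain ⟨c, hc, h0, h⟩ := reg_coord v Θ σ a ha
  obtain ⟨hJ, hI, ρ0, hρ0, ho⟩ := hP
  refine ⟨?_, fun i => ?_, fun j hj => ?_⟩
  · rw [h0]
    refine Finset.sum_pos' (fun ρ hρ => mul_nonneg (hc ρ hρ).le (Nat.cast_nonneg _)) ⟨ρ0, hρ0, ?_⟩
    exact mul_pos (hc ρ0 hρ0) (by exact_mod_cast Nat.pos_of_ne_zero ho)
  · have h1 : 0 ≤ Θ (0, a) i.succ := by
      rw [h]
      exact Finset.sum_nonneg fun ρ hρ => mul_nonneg (hc ρ hρ).le (Nat.cast_nonneg _)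
    rcases hI with hα | hI
    · rcases h1.lt_or_eq with h2 | h2
      · exact Or.inl h2
      · exact Or.inr ⟨hα, h2.symm⟩
    · left
      obtain ⟨ρ1, hρ1, h3⟩ := hI i
      rw [h]
      refine Finset.sum_pos' (fun ρ hρ => mul_nonneg (hc ρ hρ).le (Nat.cast_nonneg _)) ⟨ρ1, hρ1, ?_⟩
      exact mul_pos (hc ρ1 hρ1) (by exact_mod_cast Nat.pos_of_ne_zero h3)
  · unfold ymap
    rw [sum_form v σ c (fun l => Θ (0, a) l.succ) h j, h0, ← Finset.sum_sub_distrib]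
    rw [← hJ, minSet, Finset.mem_filter] at hj
    push Not at hj
    obtain ⟨ρ1, hρ1, h3⟩ := hj (Finset.mem_univ j)
    refine Finset.sum_pos' (fun ρ hρ => ?_) ⟨ρ1, hρ1, ?_⟩
    · rw [← mul_sub]
      refine mul_nonneg (hc ρ hρ).le (sub_nonneg.2 ?_)
      exact_mod_cast ord_le v ρ j
    · rw [← mul_sub]
      refine mul_pos (hc ρ1 hρ1) (sub_pos.2 ?_)
      exact_mod_cast lt_of_le_of_ne (ord_le v ρ1 j) (Ne.symm h3)

lemma reg_of_cond [NeZero r] (v : Fin r → Fin N → ℕ) (R : SmoothFan N) (hPr : Principal v R)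
    {J : Finset (Fin r)} (hJ : J.Nonempty) {d : ℕ}
    (Θ : ((J → ℝ) × (Fin d → ℝ)) ≃ₗ[ℝ] (Fin (N+1) → ℝ)) {θ : ℝ} (hA : Adapt v J d Θ θ) (α : ℝ)
    (a : Fin d → ℝ) (h : Cond v α J (Θ (0, a))) :
    ∃ σ ∈ R.cones, PC v α J σ ∧ a ∈ reg v Θ σ := by
  obtain ⟨h0, h1, h2⟩ := h
  have hnn : ∀ l : Fin N, 0 ≤ Θ (0, a) l.succ := by
    intro l
    rcases h1 l with h | h
    · exact h.le
    · exact h.2.symm.le
  obtain ⟨σ, ⟨hσ, y, hy, hw⟩, -⟩ := R.partition (fun l => Θ (0, a) l.succ) hnn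
  obtain ⟨j1, hj1⟩ := hPr σ hσ
  have hord : ∀ ρ ∈ σ, ordAlong v ρ = ∑ l, ρ l * v j1 l := fun ρ hρ => ord_eq ρ j1 (hj1 ρ hρ)
  have hf := sum_form v σ y (fun l => Θ (0, a) l.succ) hw
  have hge : ∀ j, ∑ ρ ∈ σ, y ρ * (ordAlong v ρ : ℝ) ≤ ∑ i, (v j i : ℝ) * Θ (0, a) i.succ := by
    intro j
    rw [hf j]
    refine Finset.sum_le_sum fun ρ hρ => mul_le_mul_of_nonneg_left ?_ (hy ρ hρ).le
    exact_mod_cast ord_le v ρ j
  have heq : ∀ j, j ∈ minSet v σ ↔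
      ∑ i, (v j i : ℝ) * Θ (0, a) i.succ = ∑ ρ ∈ σ, y ρ * (ordAlong v ρ : ℝ) := by
    intro j
    rw [hf j, minSet, Finset.mem_filter]
    constructor
    · rintro ⟨-, h⟩
      exact Finset.sum_congr rfl fun ρ hρ => by rw [h ρ hρ]
    · intro h
      refine ⟨Finset.mem_univ j, fun ρ hρ => ?_⟩
      have h3 : ∑ ρ ∈ σ, y ρ * (((∑ l, ρ l * v j l : ℕ) : ℝ) - (ordAlong v ρ : ℝ)) = 0 := by
        simp only [mul_sub, Finset.sum_sub_distrib]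
        rw [h, sub_self]
      have h4 := (Finset.sum_eq_zero_iff_of_nonneg (fun ρ hρ => mul_nonneg (hy ρ hρ).le
        (sub_nonneg.2 (by exact_mod_cast ord_le v ρ j)))).1 h3 ρ hρ
      rcases mul_eq_zero.1 h4 with h5 | h5
      · exact absurd h5 (hy ρ hρ).ne'
      · have h6 := sub_eq_zero.1 h5
        exact_mod_cast h6
  have hx0 : ∀ j ∈ J, ∑ i, (v j i : ℝ) * Θ (0, a) i.succ = Θ (0, a) 0 := by
    intro j hj
    have h3 := hA.y 0 a ⟨j, hj⟩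
    unfold ymap at h3
    simpa [sub_eq_zero] using h3
  have hx1 : ∀ j ∉ J, Θ (0, a) 0 < ∑ i, (v j i : ℝ) * Θ (0, a) i.succ := by
    intro j hj
    have h3 := h2 j hj
    unfold ymap at h3
    linarith
  have hm1 : j1 ∈ minSet v σ := by
    rw [minSet, Finset.mem_filter]
    exact ⟨Finset.mem_univ _, fun ρ hρ => (hord ρ hρ).symm⟩
  have hm : Θ (0, a) 0 = ∑ ρ ∈ σ, y ρ * (ordAlong v ρ : ℝ) := by
    refine le_antisymm ?_ ?_
    · rw [← (heq j1).1 hm1]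
      by_cases hj : j1 ∈ J
      · exact (hx0 j1 hj).symm.le
      · exact (hx1 j1 hj).le
    · obtain ⟨j2, hj2⟩ := hJ
      rw [← hx0 j2 hj2]
      exact hge j2
  refine ⟨σ, hσ, ⟨?_, ?_, ?_⟩, y, hy, ?_⟩
  · ext j
    rw [heq j, ← hm]
    constructor
    · intro h
      by_contra hj
      exact absurd h (hx1 j hj).ne'
    · exact hx0 j
  · by_cases hα : 0 < α
    · exact Or.inl hα
    · refine Or.inr fun l => ?_
      by_contra hcon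
      push Not at hcon
      have h3 : Θ (0, a) l.succ = 0 := by
        have h4 : Θ (0, a) l.succ = ∑ ρ ∈ σ, y ρ * (ρ l : ℝ) := hw l
        rw [h4]
        exact Finset.sum_eq_zero fun ρ hρ => by rw [hcon ρ hρ]; simp
      rcases h1 l with h | h
      · exact absurd h3 h.ne'
      · exact hα h.1
  · by_contra hcon
    push Not at hcon
    have h3 : Θ (0, a) 0 = 0 := by
      rw [hm]
      exact Finset.sum_eq_zero fun ρ hρ => by rw [hcon ρ hρ]; simp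
    exact absurd h3 h0.ne'
  · funext i
    refine Fin.cases ?_ (fun l => ?_) i
    · rw [hm]; simp [rhoHat]
    · have h4 : Θ (0, a) l.succ = ∑ ρ ∈ σ, y ρ * (ρ l : ℝ) := hw l
      rw [h4]; simp [rhoHat]

open Classical in
lemma limG_eq [NeZero r] (v : Fin r → Fin N → ℕ) (R : SmoothFan N) (hPr : Principal v R)
    {J : Finset (Fin r)} (hJ : J.Nonempty) {d : ℕ}
    (Θ : ((J → ℝ) × (Fin d → ℝ)) ≃ₗ[ℝ] (Fin (N+1) → ℝ)) {θ : ℝ} (hA : Adapt v J d Θ θ) (α s : ℝ)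
    (a : Fin d → ℝ) : limG v α s J (Θ (0, a)) =
      ∑ σ ∈ R.cones.filter (PC v α J),
        (reg v Θ σ).indicator (fun a => wt (lm (N := N) s) (Θ (0, a))) a := by
  have h0 : limG v α s J (Θ (0, a)) =
      if Cond v α J (Θ (0, a)) then wt (lm (N := N) s) (Θ (0, a)) else 0 := by
    unfold limG
    exact if_congr Iff.rfl rfl rfl
  rw [h0]
  split_ifs with h
  · obtain ⟨σ, hσ, hP, ha⟩ := reg_of_cond v R hPr hJ Θ hA α a h
    rw [Finset.sum_eq_single_of_mem σ (Finset.mem_filter.2 ⟨hσ, hP⟩), Set.indicator_of_mem ha]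
    intro σ' hσ' hne
    rw [Set.indicator_of_notMem]
    intro ha'
    exact hne (reg_disj v R Θ σ' σ (Finset.mem_filter.1 hσ').1 hσ a ha' ha)
  · symm
    refine Finset.sum_eq_zero fun σ hσ => ?_
    rw [Set.indicator_of_notMem]
    intro ha
    exact h (cond_of_reg v Θ α σ (Finset.mem_filter.1 hσ).2 a ha)

theorem taskC3 : TaskC3 := by
  classical
  intro r N _ v R hI hPr α s hα hs J hJ d Θ θ hA hF hidx
  have hdim := hA.dim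
  have hidx' : (idx v J : ℂ) ≠ 0 := by exact_mod_cast hidx
  have hval : ∀ σ ∈ R.cones, minSet v σ = J → σ.card + J.card = N + 1 →
      (θ : ℂ) * ∫ a in reg v Θ σ, wt (lm (N := N) s) (Θ (0, a)) =
      (idx v J : ℂ)⁻¹ * ∏ ρ ∈ σ, ((ordAlong v ρ : ℂ) * s + ((∑ l, ρ l : ℕ) : ℂ))⁻¹ := by
    intro σ hσ h1 h2
    have h3 := hF σ hσ h1 h2 (wt (lm (N := N) s))
    rw [cone_val v R s hs σ hσ] at h3
    rw [← h3]
    field_simp
  have hint : ∀ σ ∈ R.cones.filter (PC v α J), Integrable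
      ((reg v Θ σ).indicator (fun a => wt (lm (N := N) s) (Θ (0, a)))) := by
    intro σ hσ
    obtain ⟨hσ, hP⟩ := Finset.mem_filter.1 hσ
    rw [integrable_indicator_iff (reg_meas v R Θ hA σ hσ hP.1)]
    have hle := card_le v R Θ hA σ hσ hP.1
    rcases hle.lt_or_eq with hlt | heq
    · rw [IntegrableOn, Measure.restrict_eq_zero.2 (reg_null v Θ hA σ hP.1 hlt)]
      exact integrable_zero_measure
    · by_contra hcon
      have h3 := hval σ hσ hP.1 (by omega)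
      rw [integral_undef hcon, mul_zero] at h3
      have h4 : (idx v J : ℂ)⁻¹ * ∏ ρ ∈ σ, ((ordAlong v ρ : ℂ) * s + ((∑ l, ρ l : ℕ) : ℂ))⁻¹ ≠ 0 := by
        refine mul_ne_zero (inv_ne_zero hidx') (Finset.prod_ne_zero_iff.2 fun ρ hρ => inv_ne_zero ?_)
        have h5 : (ordAlong v ρ : ℂ) * s + ((∑ l, ρ l : ℕ) : ℂ) = ((kp v s ρ : ℝ) : ℂ) := by
          unfold kp; push_cast; rfl
        rw [h5]
        exact_mod_cast (kp_pos v R s hs σ hσ ρ hρ).ne'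
      exact h4 h3.symm
  simp only [limG_eq v R hPr hJ Θ hA α s]
  rw [integral_finsetSum _ hint, Finset.mul_sum, Finset.sum_filter]
  unfold limJ
  refine Finset.sum_congr rfl fun σ hσ => ?_
  by_cases hP : PC v α J σ
  · rw [if_pos hP, integral_indicator (reg_meas v R Θ hA σ hσ hP.1)]
    have hle := card_le v R Θ hA σ hσ hP.1
    rcases hle.lt_or_eq with hlt | heq
    · rw [if_neg (fun h => by have := h.2.1; omega),
        Measure.restrict_eq_zero.2 (reg_null v Θ hA σ hP.1 hlt), integral_zero_measure, mul_zero]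
    · rw [if_pos ⟨hP.1, by omega, hP.2⟩]
      exact hval σ hσ hP.1 (by omega)
  · rw [if_neg hP, if_neg (fun h => hP ⟨h.1, h.2.2⟩)]

end Pool.Agent.W655.SM
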