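import Pool.Agent.W425.SM.Stmts

set_option autoImplicit false

/-! Parts C4 and K of the sparse polynomial project. -/

namespace Pool.Agent.W655.SM

open MvPolynomial Pool.Agent.H628R4.TZ Pool.Agent.H628R4.TP Pool.Agent.W425.SM

variable {r N : ℕ}

/-- dual functional -/
lemma exists_dual (v : Fin r → Fin N → ℕ) (h : Ind v) (j0 : Fin r) :
    ∃ φ : ((Fin N → ℚ) × ℚ) →ₗ[ℚ] ℚ, ∀ j, φ ((fun i => (v j i : ℚ)), 1) = if j = j0 then 1 else 0 := by
  have hli : LinearIndependent ℚ (fun j : Fin r => (((fun i => (v j i : ℚ)) : Fin N → ℚ), (1:ℚ))) := by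
    rw [Fintype.linearIndependent_iff]
    intro g hg
    have h1 := congrArg Prod.fst hg
    have h2 := congrArg Prod.snd hg
    simp only [Prod.fst_sum, Prod.snd_sum, Prod.smul_fst, Prod.smul_snd, smul_eq_mul, mul_one,
      Prod.fst_zero, Prod.snd_zero] at h1 h2
    exact fun i => (affineIndependent_iff.1 h) Finset.univ g h2 h1 i (Finset.mem_univ i)
  obtain ⟨φ, hφ⟩ := LinearMap.exists_extend ((Finsupp.lapply j0 : (Fin r →₀ ℚ) →ₗ[ℚ] ℚ) ∘ₗ hli.repr)
  refine ⟨φ, fun j => ?_⟩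
  have hmem : (((fun i => (v j i : ℚ)) : Fin N → ℚ), (1:ℚ)) ∈ Submodule.span ℚ (Set.range (fun j : Fin r => (((fun i => (v j i : ℚ)) : Fin N → ℚ), (1:ℚ)))) :=
    Submodule.subset_span ⟨j, rfl⟩
  have h3 := LinearMap.congr_fun hφ ⟨_, hmem⟩
  simp only [LinearMap.comp_apply, Submodule.subtype_apply] at h3
  rw [h3, hli.repr_eq_single j ⟨_, hmem⟩ rfl]
  simp [Finsupp.single_apply]

/-- common denominators -/
lemma exists_mul (q : Fin N → ℚ) : ∃ (n : ℕ) (z : Fin N → ℤ), 0 < n ∧ ∀ i, (z i : ℚ) = n * q i := by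
  refine ⟨∏ i, (q i).den, fun i => (∏ k ∈ Finset.univ.erase i, ((q k).den : ℤ)) * (q i).num, ?_, ?_⟩
  · exact Finset.prod_pos fun i _ => (q i).pos
  · intro i
    rw [← Finset.mul_prod_erase Finset.univ (fun k => (q k).den) (Finset.mem_univ i)]
    push_cast
    rw [mul_comm ((q i).den : ℚ), mul_assoc, Rat.den_mul_eq_num]

lemma exists_int (v : Fin r → Fin N → ℕ) (h : Ind v) (j0 : Fin r) :
    ∃ (n : ℕ) (w : Fin N → ℤ) (t : ℤ), 0 < n ∧ ∀ j, ∑ i, w i * (v j i : ℤ) + t =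
      if j = j0 then (n : ℤ) else 0 := by
  obtain ⟨φ, hφ⟩ := exists_dual v h j0
  obtain ⟨n, z, hn, hz⟩ := exists_mul (fun i => φ (Pi.single i 1, 0))
  refine ⟨n * (φ (0, 1)).den, fun i => z i * (φ (0, 1)).den, n * (φ (0,1)).num, 
    Nat.mul_pos hn (φ (0,1)).pos, fun j => ?_⟩
  have h1 : φ ((fun i => (v j i : ℚ)), 1) = ∑ i, (v j i : ℚ) * φ (Pi.single i 1, 0) + φ (0, 1) := by
    have h2 : (((fun i => (v j i : ℚ)) : Fin N → ℚ), (1:ℚ)) =
        ∑ i, (v j i : ℚ) • ((Pi.single i 1 : Fin N → ℚ), (0:ℚ)) + ((0 : Fin N → ℚ), (1:ℚ)) := by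
      refine Prod.ext ?_ ?_
      · simp only [Prod.fst_add, Prod.fst_sum, Prod.smul_fst, add_zero]
        funext i
        simp [Finset.sum_apply, Pi.single_apply]
      · simp [Prod.snd_sum]
    rw [h2, map_add, map_sum]
    simp only [map_smul, smul_eq_mul]
  have h3 := hφ j
  rw [h1] at h3
  have h4 : ((∑ i, (z i * (φ (0, 1)).den) * (v j i : ℤ) + n * (φ (0,1)).num : ℤ) : ℚ) =
      ((if j = j0 then ((n * (φ (0, 1)).den : ℕ) : ℤ) else 0 : ℤ) : ℚ) := by
    have h5 : (((φ (0,1)).num : ℤ) : ℚ) = φ (0,1) * (φ (0,1)).den := (Rat.mul_den_eq_num _).symm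
    push_cast
    rw [h5]
    simp only [hz]
    have h6 : ∑ x, (n : ℚ) * φ (Pi.single x 1, 0) * ((φ (0, 1)).den : ℚ) * (v j x : ℚ) =
        (n : ℚ) * ((φ (0, 1)).den : ℚ) * ∑ i, (v j i : ℚ) * φ (Pi.single i 1, 0) := by
      rw [Finset.mul_sum]
      exact Finset.sum_congr rfl fun i _ => by ring
    rw [h6]
    have h7 : (n : ℚ) * ((φ (0, 1)).den : ℚ) * ∑ i, (v j i : ℚ) * φ (Pi.single i 1, 0) +
        n * (φ (0,1) * (φ (0,1)).den) = (n : ℚ) * ((φ (0, 1)).den : ℚ) *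
        (∑ i, (v j i : ℚ) * φ (Pi.single i 1, 0) + φ (0, 1)) := by ring
    rw [h7, h3]
    split_ifs <;> simp
  exact_mod_cast h4

theorem taskC4 : TaskC4 := by
  intro r N v J h
  have key : ∀ f : J → ℤ, J.card ≤ 1 → f ∈ (evalHom v J).range := by
    intro f hJ
    rw [Finset.card_le_one] at hJ
    by_cases hne : J.Nonempty
    · obtain ⟨j0, hj0⟩ := hne
      refine ⟨(0, f ⟨j0, hj0⟩), ?_⟩
      funext j
      have : j = ⟨j0, hj0⟩ := Subtype.ext (hJ _ j.2 _ hj0)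
      subst this
      simp [evalHom]
    · refine ⟨0, ?_⟩
      funext j
      exact absurd ⟨_, j.2⟩ hne
  have key2 : J.card ≤ 1 → idx v J = 1 := by
    intro hJ
    rw [idx, AddSubgroup.index_eq_one, eq_top_iff]
    exact fun f _ => key f hJ
  refine ⟨?_, fun hJ => key2 (by omega), fun hJ => key2 (by omega)⟩
  rw [idx, AddSubgroup.index_ne_zero_iff_finite]
  have hfin : Module.Finite ℤ ((J → ℤ) ⧸ (evalHom v J).range) := by
    have : Module.Finite ℤ ((J → ℤ) ⧸ AddSubgroup.toIntSubmodule (evalHom v J).range) := inferInstance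
    exact this
  have hfg : AddGroup.FG ((J → ℤ) ⧸ (evalHom v J).range) := Module.Finite.iff_addGroup_fg.mp hfin
  refine AddCommGroup.finite_of_fg_isAddTorsion _ ?_
  intro x
  obtain ⟨f, rfl⟩ := QuotientAddGroup.mk_surjective x
  have h1 : ∀ j : J, (QuotientAddGroup.mk (Pi.single j (1:ℤ)) : (J → ℤ) ⧸ (evalHom v J).range) ∈
      AddCommGroup.torsion ((J → ℤ) ⧸ (evalHom v J).range) := by
    intro j
    obtain ⟨n, w, t, hn, hw⟩ := exists_int v h j
    refine isOfFinAddOrder_iff_nsmul_eq_zero.2 ⟨n, hn, ?_⟩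
    rw [← QuotientAddGroup.mk_nsmul, QuotientAddGroup.eq_zero_iff]
    refine ⟨(w, t), ?_⟩
    funext k
    show ∑ i, w i * (v k i : ℤ) + t = _
    rw [hw, Pi.smul_apply, Pi.single_apply]
    by_cases hkj : k = j
    · rw [if_pos (congrArg Subtype.val hkj), if_pos hkj]
      simp
    · rw [if_neg (fun h => hkj (Subtype.ext h)), if_neg hkj]
      simp
  have h2 : f = ∑ j, f j • Pi.single j (1:ℤ) := by
    funext k
    simp [Finset.sum_apply, Pi.single_apply]
  show QuotientAddGroup.mk f ∈ AddCommGroup.torsion ((J → ℤ) ⧸ (evalHom v J).range)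
  have h3 : (QuotientAddGroup.mk f : (J → ℤ) ⧸ (evalHom v J).range) =
      ∑ j, f j • QuotientAddGroup.mk (Pi.single j (1:ℤ)) := by
    conv_lhs => rw [h2]
    have h4 := map_sum (QuotientAddGroup.mk' (evalHom v J).range)
      (fun j => f j • Pi.single j (1:ℤ)) Finset.univ
    refine h4.trans (Finset.sum_congr rfl fun j _ => ?_)
    rw [map_zsmul]
    rfl
  rw [h3]
  exact AddSubgroup.sum_mem _ fun j _ => AddSubgroup.zsmul_mem _ (h1 j) _

/-- removing a vertex `j0` of height one over the others -/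
lemma idx_insert (v : Fin r → Fin N → ℕ) (i : Fin N) (J : Finset (Fin r)) (j0 : Fin r)
    (hj0 : j0 ∉ J) (h1 : v j0 i = 1) (h0 : ∀ j ∈ J, v j i = 0) :
    idx v (insert j0 J) = idx v J := by
  let π : (↥(insert j0 J) → ℤ) →+ (J → ℤ) :=
    { toFun := fun f j => f ⟨j.1, Finset.mem_insert_of_mem j.2⟩
      map_zero' := rfl
      map_add' := fun _ _ => rfl }
  have hπ : Function.Surjective π := by
    intro g
    refine ⟨fun j => if h : (j : Fin r) ∈ J then g ⟨j, h⟩ else 0, ?_⟩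
    funext j
    simp [π]
  rw [idx, idx, ← AddSubgroup.index_comap_of_surjective _ hπ]
  congr 1
  ext f
  rw [AddSubgroup.mem_comap]
  constructor
  · rintro ⟨p, rfl⟩
    exact ⟨p, rfl⟩
  · rintro ⟨p, hp⟩
    refine ⟨p + (Pi.single i (f ⟨j0, Finset.mem_insert_self _ _⟩ -
      evalHom v (insert j0 J) p ⟨j0, Finset.mem_insert_self _ _⟩), 0), ?_⟩
    funext j
    rw [map_add, Pi.add_apply]
    obtain ⟨j, hj⟩ := j
    rcases Finset.mem_insert.1 hj with rfl | hj'
    · simp [evalHom, Pi.single_apply, h1]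
    · have h2 := congrFun hp ⟨j, hj'⟩
      have h3 : evalHom v (insert j0 J) p ⟨j, hj⟩ = f ⟨j, hj⟩ := h2
      rw [h3]
      simp [evalHom, Pi.single_apply, h0 j hj']

theorem taskK : TaskK := by
  intro r N v κ i hκ
  have h1 : ∃ j0, κ j0 * v j0 i ≠ 0 := by
    by_contra hcon
    push Not at hcon
    rw [Finset.sum_eq_zero fun j _ => hcon j] at hκ
    exact zero_ne_one hκ
  obtain ⟨j0, hj0⟩ := h1
  have h2 : κ j0 * v j0 i + ∑ j ∈ Finset.univ.erase j0, κ j * v j i = 1 := by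
    rw [Finset.add_sum_erase Finset.univ (fun j => κ j * v j i) (Finset.mem_univ j0)]
    exact hκ
  have h3 : κ j0 * v j0 i = 1 := by omega
  have h4 : ∀ j, j ≠ j0 → κ j * v j i = 0 := by
    intro j hj
    have h5 : ∑ j ∈ Finset.univ.erase j0, κ j * v j i = 0 := by omega
    exact (Finset.sum_eq_zero_iff.1 h5) j (Finset.mem_erase.2 ⟨hj, Finset.mem_univ j⟩)
  have hk1 : κ j0 = 1 := Nat.eq_one_of_mul_eq_one_right h3
  have hv1 : v j0 i = 1 := Nat.eq_one_of_mul_eq_one_left h3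
  set I := Ideal.span {p : MvPolynomial (Fin r) ℂ | ∃ j, 0 < v j i ∧ p = X j + C ((κ j : ℕ) : ℂ)} with hI
  have hX : ∀ j, j ≠ j0 → 0 < v j i → (X j : MvPolynomial (Fin r) ℂ) ∈ I := by
    intro j hj hv
    have hk : κ j = 0 := by
      rcases Nat.mul_eq_zero.1 (h4 j hj) with h | h
      · exact h
      · omega
    refine Ideal.subset_span ⟨j, hv, ?_⟩
    rw [hk]
    simp
  have hX0 : (X j0 + 1 : MvPolynomial (Fin r) ℂ) ∈ I := by
    refine Ideal.subset_span ⟨j0, by omega, ?_⟩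
    rw [hk1]
    simp
  unfold kerP
  rw [← Finset.powerset_univ, ← Finset.insert_erase (Finset.mem_univ j0),
    Finset.sum_powerset_insert (Finset.notMem_erase j0 _), ← Finset.sum_add_distrib]
  refine Ideal.sum_mem _ fun J hJ => ?_
  have hj0J : j0 ∉ J := fun h => Finset.notMem_erase j0 _ ((Finset.mem_powerset.1 hJ) h)
  by_cases hex : ∃ j ∈ J, 0 < v j i
  · obtain ⟨j, hj, hv⟩ := hex
    have hne : j ≠ j0 := fun h => hj0J (h ▸ hj)
    refine Ideal.add_mem _ ?_ ?_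
    · refine Ideal.mul_mem_left _ _ ?_
      rw [← Finset.mul_prod_erase J _ hj]
      exact Ideal.mul_mem_right _ _ (hX j hne hv)
    · refine Ideal.mul_mem_left _ _ ?_
      rw [← Finset.mul_prod_erase (insert j0 J) _ (Finset.mem_insert_of_mem hj)]
      exact Ideal.mul_mem_right _ _ (hX j hne hv)
  · push Not at hex
    rw [idx_insert v i J j0 hj0J hv1 fun j hj => Nat.le_zero.1 (hex j hj), Finset.prod_insert hj0J]
    have h5 : C ((idx v J : ℂ) ^ 2) * ∏ j ∈ J, X j + C ((idx v J : ℂ) ^ 2) * (X j0 * ∏ j ∈ J, X j) =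
        (C ((idx v J : ℂ) ^ 2) * ∏ j ∈ J, X j) * (X j0 + 1 : MvPolynomial (Fin r) ℂ) := by ring
    rw [h5]
    exact Ideal.mul_mem_left _ _ hX0

end Pool.Agent.W655.SM
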